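import Pool.Agent.Lib.MP_28303a_al.NT.EX.Defs

/-! # Vanishing of the negative K-groups and the stabilizers -/

set_option autoImplicit false
set_option linter.unusedSectionVars false
set_option linter.unusedVariables false

namespace Pool.Agent.NegK.NT.EX61

universe u

open Pool.Agent.NegK.TW Pool.Agent.NegK.TT Pool.Agent.NegK.NT.EX

/-- The negative K-groups of the group rings over regular rings vanish. -/
def NVan (G : Type u) [Group G] : Prop :=
  ∀ (n : ℕ) (R : Type u) [Ring R], RegularRing R → Subsingleton (KNeg (n + 1) (MonoidAlgebra R G))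

/-- A choice of representatives which contains a given element. -/
theorem exists_rep {Γ : Type u} [Group Γ] {X : Type u} [MulAction Γ X] (x : X) :
    ∃ rep : MulAction.orbitRel.Quotient Γ X → X, (∀ o, Quotient.mk'' (rep o) = o) ∧
      rep (Quotient.mk'' x) = x := by
  classical
  refine ⟨Function.update Quotient.out (Quotient.mk'' x) x, fun o => ?_,
    Function.update_self _ _ _⟩
  by_cases h : o = Quotient.mk'' x
  · subst h
    rw [Function.update_self]
  · rw [Function.update_of_ne h]
    exact Quotient.out_eq o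

/-- The negative K-groups vanish for `Γ` if and only if they vanish for the stabilizers of the
vertices of the product of the trees in `I`. -/
theorem nvan_iff (hI : ItxStatement.{u}) {Γ : Type u} [Group Γ] (Y : Trees Γ)
    (I : Finset (Fin Y.m))
    (h : ∀ j ∈ I, ∀ (v : ∀ i, Y.V i) (w : Y.V j), (Y.G j).Adj (v j) w →
      InRC (Y.st v ⊓ MulAction.stabilizer Γ w : Subgroup Γ)) :
    NVan Γ ↔ ∀ x : ∀ i : I, Y.V i, NVan (MulAction.stabilizer Γ x) := by
  classical
  refine ⟨fun hv x n R _ hR => ?_, fun hv n R _ hR => ?_⟩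
  · obtain ⟨rep, hrep, hx⟩ := exists_rep (Γ := Γ) x
    have hb := hI Γ Y I h n R hR rep hrep
    have h0 : Subsingleton (KNeg (n + 1) (MonoidAlgebra R Γ)) := hv n R hR
    have h1 : Subsingleton (KNeg (n + 1) (MonoidAlgebra R
        (MulAction.stabilizer Γ (rep (Quotient.mk'' x))))) := by
      refine ⟨fun a b => ?_⟩
      have h2 : DirectSum.of (fun o : MulAction.orbitRel.Quotient Γ (∀ i : I, Y.V i) =>
          KNeg (n + 1) (MonoidAlgebra R (MulAction.stabilizer Γ (rep o)))) (Quotient.mk'' x) a =
          DirectSum.of _ (Quotient.mk'' x) b := hb.1 (h0.elim _ _)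
      exact DirectSum.of_injective (β := fun o : MulAction.orbitRel.Quotient Γ (∀ i : I, Y.V i) =>
        KNeg (n + 1) (MonoidAlgebra R (MulAction.stabilizer Γ (rep o)))) _ h2
    rw [hx] at h1
    exact h1
  · obtain ⟨rep, hrep⟩ : ∃ rep : MulAction.orbitRel.Quotient Γ (∀ i : I, Y.V i) → ∀ i : I, Y.V i,
        ∀ o, Quotient.mk'' (rep o) = o := ⟨Quotient.out, fun o => Quotient.out_eq o⟩
    have hb := hI Γ Y I h n R hR rep hrep
    have h0 : Subsingleton (DirectSum (MulAction.orbitRel.Quotient Γ (∀ i : I, Y.V i)) fun o =>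
        KNeg (n + 1) (MonoidAlgebra R (MulAction.stabilizer Γ (rep o)))) := by
      refine ⟨fun a b => DFinsupp.ext fun o => ?_⟩
      exact (hv (rep o) n R hR).elim _ _
    exact hb.2.subsingleton

end Pool.Agent.NegK.NT.EX61
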