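import Pool.Agent.Lib.MP_28303a_al.NT.EX.Defs
import Pool.Agent.Lib.MP_28303a_al.NT.EX91.Eux

/-! # The universal property of `K₀(k[Γ])`: the assembly -/

set_option autoImplicit false
set_option linter.unusedSectionVars false
set_option linter.unusedVariables false

namespace Pool.Agent.NegK.NT.EX61

universe u

open CategoryTheory Limits Opposite Pretriangulated
open Pool.Agent.NegK.TW Pool.Agent.NegK.TT Pool.Agent.NegK.NT.ER Pool.Agent.NegK.NT.EX91
open Pool.Agent.NegK.NT.EX

/-- A tree without edges has one vertex. -/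
theorem no_edge {V : Type u} {G : SimpleGraph V} (hG : G.IsTree)
    (h : ¬ ∃ v w : V, G.Adj v w) (v w : V) : v = w := by
  obtain ⟨p⟩ := hG.connected.preconnected v w
  cases p with
  | nil => rfl
  | cons hvw _ => exact absurd ⟨_, _, hvw⟩ h

section

variable {k : Type u} [Ring k] {Γ : Type u} [Group Γ]

theorem hom_hom (F : RFun.{u}) {H H' H'' : Type u} [Group H] [Group H'] [Group H''] (a : H →* H')
    (b : H' →* H'') (z : F.obj (MonoidAlgebra k H)) :
    F.hom (mdr k b) (F.hom (mdr k a) z) = F.hom (mdr k (b.comp a)) z := by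
  rw [← AddMonoidHom.comp_apply, ← F.hom_comp, mdr_comp_mdr]

variable {X X' : Type u} [MulAction Γ X] [MulAction Γ X'] {G : Type u} [AddCommGroup G]

theorem stab_le (f : X ≃ X') (hf : ∀ (g : Γ) x, f (g • x) = g • f x) (x : X) :
    MulAction.stabilizer Γ x ≤ MulAction.stabilizer Γ (f x) := fun g hg =>
  MulAction.mem_stabilizer_iff.2 ((hf g x).symm.trans
    (congrArg f (MulAction.mem_stabilizer_iff.1 hg)))

theorem stab_ge (f : X ≃ X') (hf : ∀ (g : Γ) x, f (g • x) = g • f x) (x : X) :
    MulAction.stabilizer Γ (f x) ≤ MulAction.stabilizer Γ x := fun g hg =>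
  MulAction.mem_stabilizer_iff.2 (f.injective ((hf g x).trans
    (MulAction.mem_stabilizer_iff.1 hg)))

/-- A family along an equivariant bijection. -/
noncomputable def tra (F : RFun.{u}) (f : X ≃ X') (hf : ∀ (g : Γ) x, f (g • x) = g • f x)
    (Φ : Fam F k Γ X' G) : Fam F k Γ X G where
  φ x := (Φ.φ (f x)).comp (F.hom (mdr k (Subgroup.inclusion (stab_le f hf x))))
  conj g x y c hy hc z := by
    rw [AddMonoidHom.comp_apply, AddMonoidHom.comp_apply, hom_hom]
    have h1 := Φ.conj g (f x) (f y)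
      (((Subgroup.inclusion (stab_le f hf y)).comp c).comp
        (Subgroup.inclusion (stab_ge f hf x)))
      (by rw [hy, hf]) (fun h => by
        show (c (Subgroup.inclusion (stab_ge f hf x) h) : Γ) = _
        rw [hc]
        rfl)
      (F.hom (mdr k (Subgroup.inclusion (stab_le f hf x))) z)
    rw [← h1, hom_hom]
    rfl

end

/-- UNI. -/
theorem univ' (hK : KapStatement.{u}) (hR : RleStatement.{u}) (hF : FadStatement.{u})
    (hV : VanfStatement.{u}) (hKey : KeyStatement.{u}) (hP : EX.PsiStatement.{u})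
    (hVal : ValStatement.{u}) (hS : SysxStatement.{u}) : UnivStatement.{u} := by
  classical
  intro Γ _ Y j hst k _ hk G _ Φ hΦ
  by_cases hE : ∃ v w : Y.V j, (Y.G j).Adj v w
  · obtain ⟨T, hm, D, j', aV, aE, K, sd, f, hsd, hf, hadj, hnv, -, -⟩ := hS Γ Y j hE
    have hU : ∀ U ∈ nv K, InRC (MulAction.stabilizer Γ U) := fun U hU => by
      obtain ⟨v, w, hvw, hle⟩ := hnv U hU
      exact TT.inRC_le TT.H91.sub hle (hst v w hvw)
    let Φ' : Fam K0Fun k Γ (D.V j') G := tra K0Fun f hf Φ
    obtain ⟨κ, hκ⟩ := hK k Γ (D.V j') G Φ'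
    obtain ⟨eu, he1, -, he3⟩ := eux k (dis Γ (D.V j')) κ fun Z hZ => (hκ.S Z).2 hZ
    have heu : Eud κ eu := ⟨he1, he3⟩
    have hrel := hR k Γ (D.V j') (D.E j') (D.s j') (D.t j') K.s_smul K.t_smul G Φ' κ eu hκ heu
      (fun e h1 h2 z => by
        have h3 : MulAction.stabilizer Γ e ≤
            MulAction.stabilizer Γ (f (D.s j' e)) ⊓ MulAction.stabilizer Γ (f (D.t j' e)) :=
          le_inf (h1.trans (stab_le f hf _)) (h2.trans (stab_le f hf _))
        have h4 := hΦ (f (D.s j' e)) (f (D.t j' e)) (hadj e)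
          (K0Fun.hom (mdr k (Subgroup.inclusion h3)) z)
        have e1 := hom_hom K0Fun (Subgroup.inclusion h3) (Subgroup.inclusion
          (inf_le_left : MulAction.stabilizer Γ (f (D.s j' e)) ⊓
            MulAction.stabilizer Γ (f (D.t j' e)) ≤ _)) z
        have e2 := hom_hom K0Fun (Subgroup.inclusion h3) (Subgroup.inclusion
          (inf_le_right : MulAction.stabilizer Γ (f (D.s j' e)) ⊓
            MulAction.stabilizer Γ (f (D.t j' e)) ≤ _)) z
        have e3 := hom_hom K0Fun (Subgroup.inclusion h1)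
          (Subgroup.inclusion (stab_le f hf (D.s j' e))) z
        have e4 := hom_hom K0Fun (Subgroup.inclusion h2)
          (Subgroup.inclusion (stab_le f hf (D.t j' e))) z
        exact (congrArg (Φ.φ (f (D.s j' e))) (e3.trans e1.symm)).trans
          (h4.trans (congrArg (Φ.φ (f (D.t j' e))) (e2.trans e4.symm))))
    obtain ⟨hF1, hF2⟩ := hF Γ T D j' K k G eu he1
    have hvan := hV Γ T D j' K sd hsd k G eu he1 hrel
    have hkey := hKey Γ T D j' K hU k hk G (FF K eu (Finset.mem_singleton_self j')) (hF1 _ _)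
      (fun R hR h0 hT => by
        rw [hF2 R hR]
        exact hvan R hR h0 hT)
    obtain ⟨Ψ, hΨ⟩ := hP Γ T D j' K hU k hk G (FF K eu (Finset.mem_singleton_self j')) (hF1 _ _)
      hkey
    refine ⟨Ψ, fun x z => ?_⟩
    obtain ⟨v, rfl⟩ := f.surjective x
    have key : (Ψ.comp (K0Fun.hom (mdr k (MulAction.stabilizer Γ (f v)).subtype))) = Φ.φ (f v) := by
      refine K0.hom_ext fun q => ?_
      let q' : Idem (MonoidAlgebra k (MulAction.stabilizer Γ v)) :=
        q.map (mdr k (Subgroup.inclusion (stab_ge f hf v)))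
      let U : T.Box := Function.update (fun i => (T.ne i).some) j' (D.vt j' v)
      have hUj : U j' = D.vt j' v := Function.update_self _ _ _
      have hH : ∀ g ∈ MulAction.stabilizer Γ v, (T.P {j'}).le U (g • U) := by
        intro g hg i hi
        obtain rfl := Finset.mem_singleton.1 hi
        show U i ≤ g • U i
        rw [hUj, ← K.vt_smul, MulAction.mem_stabilizer_iff.1 hg]
      obtain ⟨X, hX, ⟨e⟩⟩ := spl k (T.P {j'}) (atH (T.P {j'}) (MulAction.stabilizer Γ v) U hH q')
        (inferInstanceAs (Finite (ULift.{u} (Fin q'.n))))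
      have h1 := hΨ (MulAction.stabilizer Γ v) U hH q' X hX ⟨e⟩
      have h2 := hVal Γ T D j' K k G Φ' κ eu hκ heu v U hUj hH q' X hX ⟨e⟩
      have h3 : K0.cls q' = K0Fun.hom (mdr k (Subgroup.inclusion (stab_ge f hf v))) (K0.cls q) :=
        (K0.map_cls _ q).symm
      have h4 : Ψ (K0Fun.hom (mdr k (MulAction.stabilizer Γ v).subtype) (K0.cls q')) =
          Φ.φ (f v) (K0Fun.hom (mdr k (Subgroup.inclusion (stab_le f hf v))) (K0.cls q')) :=
        h1.trans h2
      have e1 := hom_hom K0Fun (Subgroup.inclusion (stab_ge f hf v))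
        (MulAction.stabilizer Γ v).subtype (K0.cls q)
      have e2 := hom_hom K0Fun (Subgroup.inclusion (stab_ge f hf v))
        (Subgroup.inclusion (stab_le f hf v)) (K0.cls q)
      have h5 : (Subgroup.inclusion (stab_le f hf v)).comp
          (Subgroup.inclusion (stab_ge f hf v)) = MonoidHom.id _ := MonoidHom.ext fun g => rfl
      rw [h5, mdr_id, K0Fun.hom_id] at e2
      rw [h3] at h4
      exact ((congrArg Ψ e1).symm.trans h4).trans (congrArg (Φ.φ (f v)) e2)
    exact DFunLike.congr_fun key z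
  · have hT := (Y.tree j).tree
    obtain ⟨v⟩ := hT.connected.nonempty
    have h1 : ∀ g : Γ, g ∈ MulAction.stabilizer Γ v := fun g => no_edge hT hE _ _
    let i : Γ →* MulAction.stabilizer Γ v :=
      { toFun := fun g => ⟨g, h1 g⟩
        map_one' := rfl
        map_mul' := fun _ _ => rfl }
    refine ⟨(Φ.φ v).comp (K0Fun.hom (mdr k i)), fun x z => ?_⟩
    obtain rfl : x = v := no_edge hT hE _ _
    rw [AddMonoidHom.comp_apply, hom_hom]
    have h2 : i.comp (MulAction.stabilizer Γ x).subtype = MonoidHom.id _ :=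
      MonoidHom.ext fun g => rfl
    rw [h2, mdr_id, K0Fun.hom_id]
    rfl

end Pool.Agent.NegK.NT.EX61
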