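import Pool.Agent.Lib.MP_28303a_al.NT.ER71.All
import Pool.Agent.Lib.MP_28303a_al.NT.EX17.Dec
import Pool.Agent.Lib.MP_28303a_al.NT.EX47.Bas
import Pool.Agent.Lib.MP_28303a_al.NT.EX47.Dsum
import Pool.Agent.Lib.MP_28303a_al.NT.EX60.Itx
import Pool.Agent.Lib.MP_28303a_al.NT.EX61.Uni
import Pool.Agent.Lib.MP_28303a_al.NT.EX61.Cor
import Pool.Agent.Lib.MP_28303a_al.NT.EX67.Spt
import Pool.Agent.Lib.MP_28303a_al.NT.EX70.Val
import Pool.Agent.Lib.MP_28303a_al.NT.EX71.Kne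
import Pool.Agent.Lib.MP_28303a_al.NT.EX71.Rle
import Pool.Agent.Lib.MP_28303a_al.NT.EX73.KapS
import Pool.Agent.Lib.MP_28303a_al.NT.EX73.Tre
import Pool.Agent.Lib.MP_28303a_al.NT.EX78.Fad
import Pool.Agent.Lib.MP_28303a_al.NT.EX78.Rows
import Pool.Agent.Lib.MP_28303a_al.NT.EX91.Vanf
import Pool.Agent.Lib.MP_28303a_al.NT.H80.Psi2

/-! # Exactness: the complete assembly -/

set_option autoImplicit false
set_option linter.unusedSectionVars false
set_option linter.unusedVariables false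

namespace Pool.Agent.NegK.NT.EX61

universe u

open CategoryTheory Limits
open Pool.Agent.NegK.TW Pool.Agent.NegK.NT.ER Pool.Agent.NegK.NT.EX

theorem resS : ResStatement.{u} :=
  ER27.res ER73.rrS ER.zs ER47.tr ER71.zrS (ER.yr goodS ER47.ys) goodS

theorem vanS : VanfStatement.{u} := EX91.vanf EX78.evcS EX78.natS EX67.spt ER47.ys ER73.rrS

/-- The universal property of `K₀(k[Γ])`. -/
theorem univS : UnivStatement.{u} :=
  univ' EX73.kapS (EX71.rle EX17.dec) EX78.fadS vanS (EX91.keyS resS ER47.cl) H80.psiS EX70.valS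
    EX73.sysx

/-- The negative K-groups of `k[Γ]` are direct sums. -/
theorem itxS : ItxStatement.{u} := EX.itx univS EX47.bas EX47.dsum EX71.kne ER71.relAll

/-- The universal property in all degrees. -/
theorem upS {Γ : Type u} [Group Γ] (Y : Trees Γ) (j : Fin Y.m)
    (h : ∀ (v : ∀ i, Y.V i) (w : Y.V j), (Y.G j).Adj (v j) w →
      InRC (Y.st v ⊓ MulAction.stabilizer Γ w : Subgroup Γ)) (n : ℕ) (k : Type u) [Ring k]
    (hk : RegularRing k) :
    GN (KNegFun n) k Γ (Y.V j) ∧ UP (KNegFun n) k Γ (Y.V j) (Y.G j).Adj :=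
  EX47.bas Γ (Y.V j) (Y.G j).Adj (fun k _ hk => ⟨ER71.relAll Γ Y j h k hk, univS Γ Y j h k hk⟩)
    n k hk

/-- Vanishing for `Γ` and for the stabilizers. -/
theorem nvan {Γ : Type u} [Group Γ] (Y : Trees Γ) (I : Finset (Fin Y.m))
    (h : ∀ j ∈ I, ∀ (v : ∀ i, Y.V i) (w : Y.V j), (Y.G j).Adj (v j) w →
      InRC (Y.st v ⊓ MulAction.stabilizer Γ w : Subgroup Γ)) :
    NVan Γ ↔ ∀ x : ∀ i : I, Y.V i, NVan (MulAction.stabilizer Γ x) := nvan_iff itxS Y I h

end Pool.Agent.NegK.NT.EX61
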